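import Pool.Agent.Y267.RS.Stm

/-!
# Job RS-D2: the frequency constant of the Veech cocycle
-/

set_option autoImplicit false

namespace Pool.Agent.Y232.RS

open Set Filter Topology MeasureTheory
open Pool.Agent.Y267.RS

noncomputable section

/-! ## measurability -/

theorem arc_eq {a l : ℝ} (hl : 0 < l) :
    arc a l = insert (a : T1) ((fun y : ℝ => (y : T1)) '' Ioo a (a + l)) := by
  ext x
  constructor
  · rintro ⟨y, hy, rfl⟩
    rcases eq_or_lt_of_le hy.1 with h | h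
    · subst h
      rw [add_zero]
      exact mem_insert _ _
    · refine mem_insert_of_mem _ ⟨a + y, ⟨by linarith, by linarith [hy.2]⟩, rfl⟩
  · rintro (h | ⟨y, hy, rfl⟩)
    · exact ⟨0, ⟨le_refl _, hl⟩, by rw [h, add_zero]⟩
    · exact ⟨y - a, ⟨by linarith [hy.1], by linarith [hy.2]⟩, by
        show (y : T1) = ((a + (y - a) : ℝ) : T1)
        congr 1; ring⟩

theorem meas_arc {a l : ℝ} (hl : 0 < l) : MeasurableSet (arc a l) := by
  rw [arc_eq hl]
  refine MeasurableSet.insert ?_ _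
  exact (QuotientAddGroup.isOpenMap_coe _ isOpen_Ioo).measurableSet

theorem meas_ind {A : Set T1} (hA : MeasurableSet A) : Measurable (ind A) := by
  classical
  unfold ind
  exact Measurable.ite hA measurable_const measurable_const

theorem meas_Psi (hth : ∀ j, 0 < th j) (J : ℕ) : Measurable (Psi J) := by
  unfold Psi
  refine Finset.measurable_sum _ fun i _ => ?_
  unfold psi
  refine Finset.measurable_sum _ fun s _ => ?_
  exact (meas_ind (meas_arc (hth i))).comp (measurable_id.sub_const _)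

theorem meas_g (hth : ∀ j, 0 < th j) (J : ℕ) : Measurable fun x => (-1 : ℝ) ^ Psi J x :=
  (measurable_of_countable fun n : ℕ => (-1 : ℝ) ^ n).comp (meas_Psi hth J)

/-! ## variation -/

theorem var_le {f g h : ℝ → ℝ} {s : Set ℝ}
    (H : ∀ x ∈ s, ∀ y ∈ s, |h x - h y| ≤ |f x - f y| + |g x - g y|) :
    eVariationOn h s ≤ eVariationOn f s + eVariationOn g s := by
  unfold eVariationOn
  refine iSup_le fun p => ?_
  have h1 : ∑ i ∈ Finset.range p.1, edist (h (p.2.1 (i + 1))) (h (p.2.1 i)) ≤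
      ∑ i ∈ Finset.range p.1, edist (f (p.2.1 (i + 1))) (f (p.2.1 i)) +
      ∑ i ∈ Finset.range p.1, edist (g (p.2.1 (i + 1))) (g (p.2.1 i)) := by
    rw [← Finset.sum_add_distrib]
    refine Finset.sum_le_sum fun i _ => ?_
    rw [edist_dist, edist_dist, edist_dist, ← ENNReal.ofReal_add dist_nonneg dist_nonneg]
    refine ENNReal.ofReal_le_ofReal ?_
    rw [Real.dist_eq, Real.dist_eq, Real.dist_eq]
    exact H _ (p.2.2.2 _) _ (p.2.2.2 _)
  refine h1.trans (add_le_add ?_ ?_)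
  · exact le_iSup (fun p : ℕ × { u : ℕ → ℝ // Monotone u ∧ ∀ i, u i ∈ s } =>
      ∑ i ∈ Finset.range p.1, edist (f ((p.2 : ℕ → ℝ) (i + 1))) (f ((p.2 : ℕ → ℝ) i))) p
  · exact le_iSup (fun p : ℕ × { u : ℕ → ℝ // Monotone u ∧ ∀ i, u i ∈ s } =>
      ∑ i ∈ Finset.range p.1, edist (g ((p.2 : ℕ → ℝ) (i + 1))) (g ((p.2 : ℕ → ℝ) i))) p

theorem var_floor (b y : ℝ) :
    eVariationOn (fun s : ℝ => 2 * (⌊s - b⌋ : ℝ)) (Icc y (y + 1)) ≤ ENNReal.ofReal 2 := by
  have hm : Monotone fun s : ℝ => 2 * (⌊s - b⌋ : ℝ) := by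
    intro s t hst
    have : ⌊s - b⌋ ≤ ⌊t - b⌋ := Int.floor_le_floor (by linarith)
    have : (⌊s - b⌋ : ℝ) ≤ ⌊t - b⌋ := by exact_mod_cast this
    show 2 * (⌊s - b⌋ : ℝ) ≤ 2 * (⌊t - b⌋ : ℝ)
    linarith
  have h1 := ((hm.monotoneOn univ).eVariationOn_eq (mem_univ y) (mem_univ (y + 1))).le
  rw [univ_inter] at h1
  refine h1.trans (ENNReal.ofReal_le_ofReal ?_)
  have h2 : y + 1 - b = (y - b) + 1 := by ring
  show 2 * (⌊y + 1 - b⌋ : ℝ) - 2 * (⌊y - b⌋ : ℝ) ≤ 2
  rw [h2, Int.floor_add_one]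
  push_cast
  linarith

theorem ind_floor {a l c s : ℝ} (hl : 0 < l) (hl1 : l ≤ 1) :
    (ind (arc a l) ((s : T1) - (c : T1)) : ℤ) = ⌊s - (c + a)⌋ - ⌊s - (c + a + l)⌋ := by
  classical
  have hiff : (s : T1) - (c : T1) ∈ arc a l ↔ Int.fract (s - (c + a)) < l := by
    constructor
    · rintro ⟨y, hy, h⟩
      rw [← AddCircle.coe_sub, ← sub_eq_zero, ← AddCircle.coe_sub, AddCircle.coe_eq_zero_iff] at h
      obtain ⟨n, hn⟩ := h
      rw [zsmul_one] at hn
      have h1 : s - (c + a) = n + y := by linarith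
      have h2 : Int.fract (s - (c + a)) = y := by
        rw [h1, Int.fract_intCast_add, Int.fract_eq_self.2 ⟨hy.1, hy.2.trans_le hl1⟩]
      rw [h2]; exact hy.2
    · intro h
      refine ⟨Int.fract (s - (c + a)), ⟨Int.fract_nonneg _, h⟩, ?_⟩
      rw [← AddCircle.coe_sub, ← sub_eq_zero, ← AddCircle.coe_sub, AddCircle.coe_eq_zero_iff]
      refine ⟨⌊s - (c + a)⌋, ?_⟩
      rw [zsmul_one]
      have := Int.floor_add_fract (s - (c + a))
      linarith
  have hf := Int.floor_add_fract (s - (c + a))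
  have h0 := Int.fract_nonneg (s - (c + a))
  have h1 := Int.fract_lt_one (s - (c + a))
  unfold ind
  by_cases hx : (s : T1) - (c : T1) ∈ arc a l
  · rw [if_pos hx]
    have hx' := hiff.1 hx
    have : ⌊s - (c + a + l)⌋ = ⌊s - (c + a)⌋ - 1 := by
      rw [Int.floor_eq_iff]
      push_cast
      constructor <;> linarith
    rw [this]; push_cast; ring
  · rw [if_neg hx]
    have hx' : l ≤ Int.fract (s - (c + a)) := not_lt.1 fun h => hx (hiff.2 h)
    have : ⌊s - (c + a + l)⌋ = ⌊s - (c + a)⌋ := by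
      rw [Int.floor_eq_iff]
      constructor <;> linarith
    rw [this]; push_cast; ring

theorem ind_le (A : Set T1) (x : T1) : ind A x = 0 ∨ ind A x = 1 := by
  classical
  unfold ind
  by_cases h : x ∈ A
  · exact Or.inr (if_pos h)
  · exact Or.inl (if_neg h)

theorem sgn_ind (A : Set T1) (x : T1) : (-1 : ℝ) ^ ind A x = 1 - 2 * (ind A x : ℝ) := by
  rcases ind_le A x with h | h <;> rw [h] <;> norm_num

theorem bv_factor {a l : ℝ} (hl : 0 < l) (hl1 : l ≤ 1) (c : T1) :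
    BVc (fun x => (-1 : ℝ) ^ ind (arc a l) (x - c)) 4 := by
  intro y
  obtain ⟨c, rfl⟩ := QuotientAddGroup.mk_surjective c
  have h1 := var_le (f := fun s : ℝ => 2 * (⌊s - (c + a)⌋ : ℝ))
    (g := fun s : ℝ => 2 * (⌊s - (c + a + l)⌋ : ℝ))
    (h := fun s : ℝ => (-1 : ℝ) ^ ind (arc a l) ((s : T1) - (c : T1))) (s := Icc y (y + 1)) ?_
  · refine h1.trans ((add_le_add (var_floor _ _) (var_floor _ _)).trans ?_)
    rw [← ENNReal.ofReal_add (by norm_num) (by norm_num)]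
    exact ENNReal.ofReal_le_ofReal (by norm_num)
  · intro s _ t _
    have e : ∀ s : ℝ, (-1 : ℝ) ^ ind (arc a l) ((s : T1) - (c : T1)) =
        1 - (2 * (⌊s - (c + a)⌋ : ℝ) - 2 * (⌊s - (c + a + l)⌋ : ℝ)) := by
      intro s
      have h2 := ind_floor (a := a) (c := c) (s := s) hl hl1
      have h3 : (ind (arc a l) ((s : T1) - (c : T1)) : ℝ) =
          (⌊s - (c + a)⌋ : ℝ) - (⌊s - (c + a + l)⌋ : ℝ) := by
        have := congrArg (fun z : ℤ => (z : ℝ)) h2
        push_cast at this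
        exact this
      rw [sgn_ind, h3]; ring
    show |(-1 : ℝ) ^ ind (arc a l) ((s : T1) - (c : T1)) -
      (-1 : ℝ) ^ ind (arc a l) ((t : T1) - (c : T1))| ≤ _
    rw [e s, e t]
    have h4 := abs_add_le (2 * (⌊t - (c + a)⌋ : ℝ) - 2 * (⌊s - (c + a)⌋ : ℝ))
      (2 * (⌊s - (c + a + l)⌋ : ℝ) - 2 * (⌊t - (c + a + l)⌋ : ℝ))
    rw [abs_sub_comm (2 * (⌊t - (c + a)⌋ : ℝ))] at h4
    refine le_trans (le_of_eq ?_) h4
    congr 1; ring

theorem bv_mul {f g : T1 → ℝ} {V W : ℝ} (hV : 0 ≤ V) (hW : 0 ≤ W) (hf : ∀ x, |f x| ≤ 1)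
    (hg : ∀ x, |g x| ≤ 1) (h1 : BVc f V) (h2 : BVc g W) : BVc (fun x => f x * g x) (V + W) := by
  intro y
  rw [ENNReal.ofReal_add hV hW]
  refine le_trans (var_le ?_) (add_le_add (h1 y) (h2 y))
  intro s _ t _
  have e : f s * g s - f t * g t = (f s - f t) * g s + f t * (g s - g t) := by ring
  show |f s * g s - f t * g t| ≤ |f s - f t| + |g s - g t|
  rw [e]
  refine (abs_add_le _ _).trans (add_le_add ?_ ?_)
  · rw [abs_mul]
    calc |f ↑s - f ↑t| * |g ↑s| ≤ |f ↑s - f ↑t| * 1 :=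
          mul_le_mul_of_nonneg_left (hg _) (abs_nonneg _)
      _ = _ := mul_one _
  · rw [abs_mul]
    calc |f ↑t| * |g ↑s - g ↑t| ≤ 1 * |g ↑s - g ↑t| :=
          mul_le_mul_of_nonneg_right (hf _) (abs_nonneg _)
      _ = _ := one_mul _

theorem abs_negone (n : ℕ) : |(-1 : ℝ) ^ n| = 1 := by
  rw [abs_pow, abs_neg, abs_one, one_pow]

theorem bv_sum {ι : Type*} (S : Finset ι) (F : ι → T1 → ℕ) (V : ι → ℝ) (hV : ∀ i, 0 ≤ V i)
    (h : ∀ i ∈ S, BVc (fun x => (-1 : ℝ) ^ F i x) (V i)) :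
    BVc (fun x => (-1 : ℝ) ^ ∑ i ∈ S, F i x) (∑ i ∈ S, V i) := by
  classical
  induction S using Finset.induction_on with
  | empty =>
    intro y
    simp only [Finset.sum_empty, pow_zero]
    refine le_of_eq_of_le (eVariationOn.constant_on ?_) zero_le
    rintro _ ⟨_, _, rfl⟩ _ ⟨_, _, rfl⟩
    rfl
  | insert a S ha ih =>
    simp only [Finset.sum_insert ha, pow_add]
    exact bv_mul (hV a) (Finset.sum_nonneg fun i _ => hV i) (fun x => (abs_negone _).le)
      (fun x => (abs_negone _).le) (h a (Finset.mem_insert_self _ _))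
      (ih fun i hi => h i (Finset.mem_insert_of_mem hi))

theorem bv_g (hth : ∀ j, 0 < th j) (hth1 : ∀ j, th j ≤ 1) (J : ℕ) :
    ∃ V : ℝ, 0 ≤ V ∧ BVc (fun x => (-1 : ℝ) ^ Psi J x) V := by
  refine ⟨∑ i ∈ Finset.range J, ∑ s ∈ Finset.Icc 1 (Q i), 4, by positivity, ?_⟩
  unfold Psi
  refine bv_sum _ _ _ (fun i => by positivity) fun i _ => ?_
  unfold psi
  refine bv_sum _ _ _ (fun i => by positivity) fun s _ => ?_
  exact bv_factor (hth i) (hth1 i) _

/-! ## visits -/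

theorem Q_pos (j : ℕ) : (0 : ℝ) < Q j := by
  have : 0 < Q j := Nat.pow_pos (by norm_num)
  exact_mod_cast this

theorem Q_succ (j : ℕ) : Q (j + 1) = Q j ^ 3 := by
  unfold Q
  rw [← pow_mul, pow_succ]
  congr 1; ring

theorem Q_ge (j : ℕ) : 1024 ≤ Q j := by
  unfold Q
  calc 1024 = 2 ^ (10 * 1) := by norm_num
    _ ≤ 2 ^ (10 * 3 ^ j) := Nat.pow_le_pow_right (by norm_num)
        (Nat.mul_le_mul le_rfl (Nat.one_le_pow _ _ (by norm_num)))

theorem Q_two (j : ℕ) : 2 * Q j ≤ Q (j + 1) := by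
  rw [Q_succ]
  have h := Q_ge j
  calc 2 * Q j ≤ Q j * Q j := Nat.mul_le_mul (by omega) le_rfl
    _ ≤ Q j * Q j * Q j := Nat.le_mul_of_pos_right _ (by omega)
    _ = _ := by ring

theorem two_visits (h2 : A2Stm) (h4 : A4Stm) (h5 : A5Stm) (i : ℕ) (x : T1) (s t : ℕ) (hst : s < t)
    (hs : rot x s ∈ arc (uu i) (th i)) (ht : rot x t ∈ arc (uu i) (th i)) :
    1 / 2 < ((t : ℝ) - s) * th i := by
  have hQ := Q_pos i
  have hQ2 : (1024 : ℝ) ≤ Q i := by exact_mod_cast Q_ge i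
  have hthp : 0 < th i := lt_of_lt_of_le (by positivity) (h2 i).1
  obtain ⟨y, hy, hy'⟩ := hs
  obtain ⟨z, hz, hz'⟩ := ht
  by_contra hcon
  have hcon := not_lt.1 hcon
  have hn : (((((t : ℤ) - s : ℤ) : ℝ) * al : ℝ) : T1) = ((z - y : ℝ) : T1) := by
    have e1 : (((((t : ℤ) - s : ℤ) : ℝ) * al : ℝ) : T1) = rot x t - rot x s := by
      unfold rot
      have : ((((t : ℤ) - s : ℤ) : ℝ) * al : ℝ) = (t : ℝ) * al - (s : ℝ) * al := by
        push_cast; ring
      rw [this, AddCircle.coe_sub]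
      abel
    rw [e1, hy', hz', ← AddCircle.coe_sub]
    congr 1; ring
  have hnorm : ‖(((((t : ℤ) - s : ℤ) : ℝ) * al : ℝ) : T1)‖ < th i := by
    rw [hn]
    refine lt_of_le_of_lt (QuotientAddGroup.norm_mk_le_norm) ?_
    rw [Real.norm_eq_abs, abs_lt]
    constructor <;> linarith [hy.1, hy.2, hz.1, hz.2]
  have hts : (0 : ℝ) < (t : ℝ) - s := by
    have : (s : ℝ) < t := by exact_mod_cast hst
    linarith
  have habs : |(((t : ℤ) - s : ℤ) : ℝ)| = (t : ℝ) - s := by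
    push_cast
    exact abs_of_pos hts
  by_cases hd : (Q i : ℤ) ∣ (t : ℤ) - s
  · obtain ⟨l, hl⟩ := hd
    have hl' : (t : ℝ) - s = Q i * l := by
      have := congrArg (fun z : ℤ => (z : ℝ)) hl
      push_cast at this
      exact this
    have hlpos : (0 : ℝ) < l := by
      rw [hl'] at hts
      exact (pos_iff_pos_of_mul_pos hts).1 hQ
    have hl1 : (1 : ℝ) ≤ l := by
      have : (0 : ℤ) < l := by exact_mod_cast hlpos
      exact_mod_cast this
    have hle : |(l : ℝ)| * th i ≤ 1 / 2 := by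
      rw [abs_of_pos hlpos]
      refine le_trans ?_ hcon
      rw [hl']
      refine mul_le_mul_of_nonneg_right ?_ hthp.le
      nlinarith
    have h6 := h5 i l hle
    have e2 : ((((t : ℤ) - s : ℤ) : ℝ) * al : ℝ) = ((Q i : ℝ) * l) * al := by
      push_cast
      rw [hl']
    rw [e2, h6, abs_of_pos hlpos] at hnorm
    nlinarith
  · have h6 := h4 i ((t : ℤ) - s) (by rw [habs]; exact hcon) hd
    have h7 := (h2 i).2
    have h8 : 1.001 / (Q i : ℝ) ^ 2 ≤ 1 / (2 * (Q i : ℝ)) := by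
      rw [div_le_div_iff₀ (by positivity) (by positivity)]
      nlinarith
    linarith

theorem visits_le (h2 : A2Stm) (h4 : A4Stm) (h5 : A5Stm) (i : ℕ) (x : T1) (L : ℕ) :
    (visits (arc (uu i) (th i)) x L : ℝ) ≤ 2 * th i * L + 1 := by
  classical
  have hthp : 0 < th i := lt_of_lt_of_le (by have := Q_pos i; positivity) (h2 i).1
  have e : visits (arc (uu i) (th i)) x L =
      ((Finset.range L).filter fun t => rot x t ∈ arc (uu i) (th i)).card := by
    unfold visits ind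
    rw [Finset.card_filter]
  rw [e]
  have hcard : ((Finset.range L).filter fun t => rot x t ∈ arc (uu i) (th i)).card ≤
      (Finset.range (⌊2 * th i * L⌋₊ + 1)).card := by
    refine Finset.card_le_card_of_injOn (fun t => ⌊2 * th i * (t : ℝ)⌋₊) ?_ ?_
    · intro t ht
      have ht' := (Finset.mem_filter.1 (Finset.mem_coe.1 ht)).1
      rw [Finset.mem_range] at ht'
      rw [Finset.mem_coe, Finset.mem_range, Nat.lt_succ_iff]
      refine Nat.floor_le_floor ?_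
      have : (t : ℝ) ≤ L := by exact_mod_cast ht'.le
      exact mul_le_mul_of_nonneg_left this (by positivity)
    · have key : ∀ s t : ℕ, s < t → rot x s ∈ arc (uu i) (th i) → rot x t ∈ arc (uu i) (th i) →
          ⌊2 * th i * (s : ℝ)⌋₊ < ⌊2 * th i * (t : ℝ)⌋₊ := by
        intro s t hst hs ht
        have h6 := two_visits h2 h4 h5 i x s t hst hs ht
        have h7 : ⌊2 * th i * (s : ℝ) + 1⌋₊ ≤ ⌊2 * th i * (t : ℝ)⌋₊ :=
          Nat.floor_le_floor (by nlinarith)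
        rw [Nat.floor_add_one (by positivity)] at h7
        omega
      intro s hs t ht hst
      have hs' := (Finset.mem_filter.1 (Finset.mem_coe.1 hs)).2
      have ht' := (Finset.mem_filter.1 (Finset.mem_coe.1 ht)).2
      have hst' : ⌊2 * th i * (s : ℝ)⌋₊ = ⌊2 * th i * (t : ℝ)⌋₊ := hst
      rcases lt_trichotomy s t with h | h | h
      · exact absurd hst' (key s t h hs' ht').ne
      · exact h
      · exact absurd hst' (key t s h ht' hs').ne'
  rw [Finset.card_range] at hcard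
  have h6 : (⌊2 * th i * (L : ℝ)⌋₊ : ℝ) ≤ 2 * th i * L := Nat.floor_le (by positivity)
  have h7 : (((Finset.range L).filter fun t => rot x t ∈ arc (uu i) (th i)).card : ℝ) ≤
      (⌊2 * th i * (L : ℝ)⌋₊ : ℝ) + 1 := by exact_mod_cast hcard
  linarith

theorem sum_psi_le (h2 : A2Stm) (h4 : A4Stm) (h5 : A5Stm) (i : ℕ) (x : T1) (L : ℕ) :
    (∑ t ∈ Finset.range L, (psi i (rot x t) : ℝ)) ≤ 2.002 / Q i * L + Q i := by
  have e : (∑ t ∈ Finset.range L, (psi i (rot x t) : ℝ)) =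
      ∑ s ∈ Finset.Icc 1 (Q i),
        (visits (arc (uu i) (th i)) (x - (((s : ℝ) * al : ℝ) : T1)) L : ℝ) := by
    unfold psi visits
    push_cast
    rw [Finset.sum_comm]
    refine Finset.sum_congr rfl fun s _ => Finset.sum_congr rfl fun t _ => ?_
    congr 2
    unfold rot
    abel
  rw [e]
  have h6 : ∑ s ∈ Finset.Icc 1 (Q i),
        (visits (arc (uu i) (th i)) (x - (((s : ℝ) * al : ℝ) : T1)) L : ℝ) ≤
      ∑ s ∈ Finset.Icc 1 (Q i), (2 * th i * L + 1) :=
    Finset.sum_le_sum fun s _ => visits_le h2 h4 h5 i _ L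
  refine h6.trans ?_
  rw [Finset.sum_const, Nat.card_Icc, Nat.add_sub_cancel, nsmul_eq_mul]
  have hQ := Q_pos i
  have h7 := (h2 i).2
  have h8 : (Q i : ℝ) * th i ≤ 1.001 / Q i := by
    calc (Q i : ℝ) * th i ≤ Q i * (1.001 / (Q i : ℝ) ^ 2) :=
          mul_le_mul_of_nonneg_left h7 hQ.le
      _ = 1.001 / Q i := by field_simp
  have h9 : (Q i : ℝ) * (2 * th i * L + 1) = 2 * (Q i * th i) * L + Q i := by ring
  rw [h9]
  have h10 : 2 * ((Q i : ℝ) * th i) * L ≤ 2.002 / Q i * L := by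
    refine mul_le_mul_of_nonneg_right ?_ (Nat.cast_nonneg _)
    have : 2.002 / (Q i : ℝ) = 2 * (1.001 / Q i) := by ring
    rw [this]
    linarith
  linarith

theorem sgn_diff (a b : ℕ) (h : a ≤ b) : |(-1 : ℝ) ^ b - (-1 : ℝ) ^ a| ≤ 2 * ((b : ℝ) - a) := by
  rcases Nat.eq_or_lt_of_le h with h | h
  · subst h; simp
  · have h1 : |(-1 : ℝ) ^ b - (-1 : ℝ) ^ a| ≤ 2 := by
      refine (abs_sub _ _).trans ?_
      rw [abs_negone, abs_negone]; norm_num
    have h2 : (a : ℝ) + 1 ≤ b := by exact_mod_cast h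
    linarith

theorem sumQ (j : ℕ) : (∑ i ∈ Finset.range (j + 1), (Q i : ℝ)) ≤ 2 * Q j := by
  induction j with
  | zero =>
    rw [Finset.sum_range_one]
    linarith [Q_pos 0]
  | succ j ih =>
    rw [Finset.sum_range_succ]
    have : (2 : ℝ) * Q j ≤ Q (j + 1) := by exact_mod_cast Q_two j
    linarith

theorem sumQinv (J n : ℕ) :
    (∑ i ∈ Finset.range n, 1 / (Q (J + i) : ℝ)) + 2 / (Q (J + n) : ℝ) ≤ 2 / (Q J : ℝ) := by
  induction n with
  | zero => simp
  | succ n ih =>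
    rw [Finset.sum_range_succ]
    have h1 : (2 : ℝ) * Q (J + n) ≤ Q (J + n + 1) := by exact_mod_cast Q_two (J + n)
    have h2 : 2 / (Q (J + n + 1) : ℝ) ≤ 1 / Q (J + n) := by
      rw [div_le_div_iff₀ (Q_pos _) (Q_pos _)]
      linarith
    have h3 : 2 / (Q (J + n) : ℝ) = 1 / Q (J + n) + 1 / Q (J + n) := by ring
    have h4 : J + (n + 1) = J + n + 1 := rfl
    rw [h4]
    linarith

/-- comparison of the Birkhoff sums -/
theorem birk_diff (h2 : A2Stm) (h4 : A4Stm) (h5 : A5Stm) (J n : ℕ) (x : T1) (l : ℕ) :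
    |∑ t ∈ Finset.range l, (-1 : ℝ) ^ Psi (J + n) (rot x t) -
      ∑ t ∈ Finset.range l, (-1 : ℝ) ^ Psi J (rot x t)| ≤
      8.008 / Q J * l + 4 * (Q (J + n - 1) : ℝ) := by
  rcases Nat.eq_zero_or_pos n with hn | hn
  · subst hn
    rw [add_zero, sub_self, abs_zero]
    have := Q_pos J
    have := Q_pos (J - 1)
    positivity
  rw [← Finset.sum_sub_distrib]
  refine (Finset.abs_sum_le_sum_abs _ _).trans ?_
  have hP : ∀ y : T1, (Psi (J + n) y : ℝ) = Psi J y + ∑ i ∈ Finset.range n, (psi (J + i) y : ℝ) := by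
    intro y
    unfold Psi
    rw [Finset.sum_range_add]
    push_cast
    rfl
  have h6 : ∀ t ∈ Finset.range l, |(-1 : ℝ) ^ Psi (J + n) (rot x t) -
      (-1 : ℝ) ^ Psi J (rot x t)| ≤ 2 * ∑ i ∈ Finset.range n, (psi (J + i) (rot x t) : ℝ) := by
    intro t _
    refine (sgn_diff _ _ ?_).trans ?_
    · have := hP (rot x t)
      have h0 : (0 : ℝ) ≤ ∑ i ∈ Finset.range n, (psi (J + i) (rot x t) : ℝ) := by positivity
      have : (Psi J (rot x t) : ℝ) ≤ Psi (J + n) (rot x t) := by linarith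
      exact_mod_cast this
    · rw [hP]
      linarith
  refine (Finset.sum_le_sum h6).trans ?_
  rw [← Finset.mul_sum, Finset.sum_comm]
  have h7 : ∑ i ∈ Finset.range n, ∑ t ∈ Finset.range l, (psi (J + i) (rot x t) : ℝ) ≤
      ∑ i ∈ Finset.range n, (2.002 / (Q (J + i) : ℝ) * (l : ℝ) + (Q (J + i) : ℝ)) :=
    Finset.sum_le_sum fun i _ => sum_psi_le h2 h4 h5 (J + i) x l
  have h8 : ∑ i ∈ Finset.range n, (2.002 / Q (J + i) * (l : ℝ) + Q (J + i)) =
      2.002 * l * (∑ i ∈ Finset.range n, 1 / (Q (J + i) : ℝ)) +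
        ∑ i ∈ Finset.range n, (Q (J + i) : ℝ) := by
    rw [Finset.sum_add_distrib, Finset.mul_sum]
    congr 1
    refine Finset.sum_congr rfl fun i _ => ?_
    ring
  have h9 : (∑ i ∈ Finset.range n, 1 / (Q (J + i) : ℝ)) ≤ 2 / (Q J : ℝ) := by
    have h10 := sumQinv J n
    have h11 : 0 < 2 / (Q (J + n) : ℝ) := by have := Q_pos (J + n); positivity
    linarith
  have h10 : ∑ i ∈ Finset.range n, (Q (J + i) : ℝ) ≤ 2 * Q (J + n - 1) := by
    have h11 := sumQ (J + n - 1)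
    rw [Nat.sub_add_cancel (by omega), Finset.sum_range_add] at h11
    have h12 : (0 : ℝ) ≤ ∑ i ∈ Finset.range J, (Q i : ℝ) := by positivity
    linarith
  have h11 : 2.002 * (l : ℝ) * (∑ i ∈ Finset.range n, 1 / (Q (J + i) : ℝ)) ≤
      2.002 * (l : ℝ) * (2 / (Q J : ℝ)) := mul_le_mul_of_nonneg_left h9 (by positivity)
  have h12 : 2.002 * (l : ℝ) * (2 / (Q J : ℝ)) = 4.004 / Q J * l := by ring
  have h13 : 8.008 / (Q J : ℝ) * l = 2 * (4.004 / Q J * l) := by ring
  linarith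

/-! ## the constant -/

/-- the mean of `(-1)^Ψ_J` -/
def kap (J : ℕ) : ℝ := ∫ z : T1, (-1 : ℝ) ^ Psi J z

theorem th_pos (h2 : A2Stm) (j : ℕ) : 0 < th j :=
  lt_of_lt_of_le (by have := Q_pos j; positivity) (h2 j).1

theorem th_le (h2 : A2Stm) (j : ℕ) : th j ≤ 1 := by
  refine (h2 j).2.trans ?_
  have hQ : (1024 : ℝ) ≤ Q j := by exact_mod_cast Q_ge j
  rw [div_le_one (by positivity)]
  nlinarith

theorem kap_birk (h2 : A2Stm) (hb : B2Stm) (J : ℕ) (ε : ℝ) (hε : 0 < ε) :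
    ∃ n₀ : ℕ, ∀ n ≥ n₀, ∀ x : T1,
      |∑ t ∈ Finset.range n, (-1 : ℝ) ^ Psi J (rot x t) - (n : ℝ) * kap J| ≤ ε * n := by
  obtain ⟨V, hV, hV'⟩ := bv_g (th_pos h2) (th_le h2) J
  exact hb (fun x => (-1 : ℝ) ^ Psi J x) V hV (meas_g (th_pos h2) J) hV' ε hε

theorem kap_abs (J : ℕ) : |kap J| ≤ 1 := by
  unfold kap
  rw [← Real.norm_eq_abs]
  have h := norm_integral_le_of_norm_le_const (μ := (volume : Measure T1)) (C := 1)
    (f := fun z : T1 => (-1 : ℝ) ^ Psi J z)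
    (Eventually.of_forall fun z => by rw [Real.norm_eq_abs, abs_negone])
  refine h.trans ?_
  rw [one_mul, Measure.real, AddCircle.measure_univ, ENNReal.toReal_ofReal zero_le_one]

theorem kap_zero : kap 0 = 1 := by
  unfold kap Psi
  simp only [Finset.range_zero, Finset.sum_empty, pow_zero]
  rw [integral_const, Measure.real, AddCircle.measure_univ, ENNReal.toReal_ofReal zero_le_one]
  simp

theorem kap_diff (h2 : A2Stm) (h4 : A4Stm) (h5 : A5Stm) (hb : B2Stm) (J n : ℕ) :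
    |kap (J + n) - kap J| ≤ 8.008 / Q J := by
  refine le_of_forall_pos_le_add fun ε hε => ?_
  have hε3 : 0 < ε / 3 := by positivity
  obtain ⟨n₁, hn₁⟩ := kap_birk h2 hb (J + n) (ε / 3) hε3
  obtain ⟨n₂, hn₂⟩ := kap_birk h2 hb J (ε / 3) hε3
  obtain ⟨n₃, hn₃⟩ := exists_nat_ge (4 * (Q (J + n - 1) : ℝ) / (ε / 3))
  set l := n₁ + n₂ + n₃ + 1 with hl
  have hlpos : (0 : ℝ) < l := by rw [hl]; positivity
  have a1 := hn₁ l (by omega) 0
  have a2 := hn₂ l (by omega) 0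
  have a3 := birk_diff h2 h4 h5 J n 0 l
  have a4 : 4 * (Q (J + n - 1) : ℝ) ≤ ε / 3 * l := by
    rw [div_le_iff₀ hε3] at hn₃
    refine hn₃.trans ?_
    rw [mul_comm]
    refine mul_le_mul_of_nonneg_left ?_ hε3.le
    have : n₃ ≤ l := by omega
    exact_mod_cast this
  have a5 : (l : ℝ) * |kap (J + n) - kap J| ≤ l * (8.008 / Q J + ε) := by
    have e : (l : ℝ) * |kap (J + n) - kap J| = |(l : ℝ) * (kap (J + n) - kap J)| := by
      rw [abs_mul, abs_of_pos hlpos]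
    rw [e]
    rw [abs_le] at a1 a2 a3 ⊢
    have e2 : (l : ℝ) * (8.008 / Q J + ε) = 8.008 / Q J * l + ε / 3 * l + ε / 3 * l + ε / 3 * l := by
      ring
    rw [e2, mul_sub]
    constructor <;> linarith [a1.1, a1.2, a2.1, a2.2, a3.1, a3.2]
  exact le_of_mul_le_mul_left a5 hlpos

theorem d2 (h1 : A1Stm) (h2 : A2Stm) (h3 : A3Stm) (h4 : A4Stm) (h5 : A5Stm) (h6 : A6Stm)
    (hb : B2Stm) : D2Stm := by
  have hlim : Tendsto (fun N : ℕ => 8.008 / (Q N : ℝ)) atTop (𝓝 0) := by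
    have := h1.1.tendsto_atTop_zero.const_mul 8.008
    rw [mul_zero] at this
    refine this.congr fun N => ?_
    ring
  have hlim2 : Tendsto (fun N : ℕ => 8.008 / (Q N : ℝ) + 8.008 / (Q N : ℝ)) atTop (𝓝 0) := by
    have := hlim.add hlim
    rwa [add_zero] at this
  have hd : ∀ J n, J ≤ n → |kap n - kap J| ≤ 8.008 / Q J := by
    intro J n hJn
    obtain ⟨m, rfl⟩ := Nat.exists_eq_add_of_le hJn
    exact kap_diff h2 h4 h5 hb J m
  have hc : CauchySeq kap := by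
    refine cauchySeq_of_le_tendsto_0 _ (fun n m N hn hm => ?_) hlim2
    rw [Real.dist_eq]
    have a1 := hd N n hn
    have a2 := hd N m hm
    rw [abs_le] at a1 a2 ⊢
    constructor <;> linarith [a1.1, a1.2, a2.1, a2.2]
  obtain ⟨κ, hκ⟩ := cauchySeq_tendsto_of_complete hc
  have hκJ : ∀ J, |κ - kap J| ≤ 8.008 / Q J := by
    intro J
    refine le_of_tendsto ((hκ.sub_const (kap J)).abs) ?_
    filter_upwards [eventually_ge_atTop J] with n hn
    exact hd J n hn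
  refine ⟨κ, ?_, ?_, ?_⟩
  · have a1 := hκJ 0
    rw [kap_zero] at a1
    have a2 : 8.008 / (Q 0 : ℝ) ≤ 1 / 2 := by
      have hQ : (1024 : ℝ) ≤ Q 0 := by exact_mod_cast Q_ge 0
      rw [div_le_div_iff₀ (by positivity) (by norm_num)]
      linarith
    rw [abs_le] at a1
    linarith [a1.1]
  · exact le_of_tendsto hκ (Eventually.of_forall fun n => (abs_le.1 (kap_abs n)).2)
  · intro ε hε
    have hε3 : 0 < ε / 3 := by positivity
    obtain ⟨J, hJ⟩ := (hlim.eventually (gt_mem_nhds hε3)).exists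
    obtain ⟨n₀, hn₀⟩ := kap_birk h2 hb J (ε / 3) hε3
    refine ⟨J + 1, 4 + 2 * n₀, by omega, ?_⟩
    intro j hj l x
    obtain ⟨n, rfl⟩ := Nat.exists_eq_add_of_le (show J ≤ j by omega)
    have a1 := birk_diff h2 h4 h5 J n x l
    have a3 := hκJ J
    have hl : (0 : ℝ) ≤ l := Nat.cast_nonneg l
    have hQ1 : (1 : ℝ) ≤ Q (J + n - 1) := by
      have := Q_ge (J + n - 1)
      have : 1 ≤ Q (J + n - 1) := by omega
      exact_mod_cast this
    have hn0 : (0 : ℝ) ≤ n₀ := Nat.cast_nonneg _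
    have a2 : |∑ t ∈ Finset.range l, (-1 : ℝ) ^ Psi J (rot x t) - (l : ℝ) * kap J| ≤
        ε / 3 * l + 2 * n₀ := by
      rcases le_or_gt n₀ l with h | h
      · have := hn₀ l h x
        linarith
      · have b1 : |∑ t ∈ Finset.range l, (-1 : ℝ) ^ Psi J (rot x t)| ≤ l := by
          refine (Finset.abs_sum_le_sum_abs _ _).trans ?_
          simp only [abs_negone, Finset.sum_const, Finset.card_range, nsmul_eq_mul, mul_one]
          exact le_refl _
        have b2 : |(l : ℝ) * kap J| ≤ l := by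
          rw [abs_mul, abs_of_nonneg hl]
          calc (l : ℝ) * |kap J| ≤ l * 1 := mul_le_mul_of_nonneg_left (kap_abs J) hl
            _ = l := mul_one _
        have b3 : (l : ℝ) ≤ n₀ := by exact_mod_cast h.le
        have b4 := abs_sub (∑ t ∈ Finset.range l, (-1 : ℝ) ^ Psi J (rot x t)) ((l : ℝ) * kap J)
        have b5 : 0 ≤ ε / 3 * l := by positivity
        linarith
    have a4 : |(l : ℝ) * kap J - κ * l| ≤ ε / 3 * l := by
      have e : (l : ℝ) * kap J - κ * l = -(l * (κ - kap J)) := by ring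
      rw [e, abs_neg, abs_mul, abs_of_nonneg hl, mul_comm (ε / 3)]
      exact mul_le_mul_of_nonneg_left (a3.trans hJ.le) hl
    have a5 : 8.008 / (Q J : ℝ) * l ≤ ε / 3 * l := mul_le_mul_of_nonneg_right hJ.le hl
    have a6 : 2 * (n₀ : ℝ) ≤ 2 * n₀ * Q (J + n - 1) := by nlinarith
    have a7 : (4 + 2 * (n₀ : ℝ)) * Q (J + n - 1) = 4 * Q (J + n - 1) + 2 * n₀ * Q (J + n - 1) := by
      ring
    rw [a7]
    rw [abs_le] at a1 a2 a4 ⊢
    constructor <;> linarith [a1.1, a1.2, a2.1, a2.2, a4.1, a4.2]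

end

end Pool.Agent.Y232.RS
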